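import Pool.Agent.H65.CZF.TA
import Pool.Agent.H14.CRZ.CM

/-!
Module CMW: upper bound of the zeros of a weighted family from the mean squares.
-/

set_option autoImplicit false

open Complex MeasureTheory Set Filter Topology

namespace Pool.Agent.H47.CZF

open Pool.Agent.H65.CRZ Pool.Agent.H65.CZF
open Pool.Agent.H14.CRZ (sp_eq sp_cont sp_nonneg sp_integral cmC)

theorem cmw_right {ι : Type} [Fintype ι] {w : ι → ℝ} {f : ι → ℂ → ℂ} {a b T₁ D e Q₁ Q₂ : ℝ}
    (hw : ∀ i, 0 ≤ w i) (hab : a < b)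
    (hD : 0 < D) (hQ₁ : 1 ≤ Q₁) (hQ₂ : 1 ≤ Q₂)
    (cont : ∀ i, ∀ s : ℂ, a ≤ s.re → s.re ≤ b → T₁ ≤ s.im → s.im ≤ T₁ + D →
      ContinuousAt (f i) s)
    (hm1 : ∀ t ∈ Icc T₁ (T₁ + D), ∑ i, w i * ‖f i (a + t * I)‖ ^ 2 ≤ Q₁ * ∑ i, w i)
    (hm2 : ∀ t ∈ Icc T₁ (T₁ + D), ∀ x ∈ Icc a b,
      ∑ i, w i * ‖f i (x + t * I)‖ ^ 2 ≤ Q₂ * ∑ i, w i) :
    ∑ i, w i * (1 / 2 * (∫ t in T₁..(T₁ + D), (‖f i (a + t * I)‖ ^ 2 / Q₁ - 1 + Real.log Q₁) *
          Real.sin (Real.pi * (t - T₁) / D)) +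
        1 / 2 * (∫ x in a..b, (‖f i (x + T₁ * I)‖ ^ 2 / Q₂ +
          ‖f i (x + ((T₁ + D : ℝ) : ℂ) * I)‖ ^ 2 / Q₂ - 2 + 2 * Real.log Q₂) *
            Real.sinh (Real.pi * (x - a) / D)) +
        (D + 2) * D * Real.cosh (Real.pi * (b - a) / D) * e) ≤
      cmC a b D e Q₁ Q₂ * ∑ i, w i := by
  have hpi := Real.pi_pos
  have hle1 : T₁ ≤ T₁ + D := by linarith
  have hq1 : 0 ≤ Real.log Q₁ := Real.log_nonneg hQ₁
  have hq2 : 0 ≤ Real.log Q₂ := Real.log_nonneg hQ₂
  have hQ₁0 : 0 < Q₁ := by linarith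
  have hQ₂0 : 0 < Q₂ := by linarith
  obtain ⟨S, hS⟩ : ∃ S : ℝ, S = ∑ i, w i := ⟨_, rfl⟩
  rw [← hS] at hm1 hm2 ⊢
  have hc0 : (0 : ℝ) ≤ S := by
    rw [hS]
    exact Finset.sum_nonneg fun i _ => hw i
  have csin : Continuous fun t : ℝ => Real.sin (Real.pi * (t - T₁) / D) := by fun_prop
  have csinh : Continuous fun x : ℝ => Real.sinh (Real.pi * (x - a) / D) := by fun_prop
  have cleft : ∀ i, ContinuousOn (fun t : ℝ => f i (a + t * I)) (Icc T₁ (T₁ + D)) := by
    intro i t ht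
    have h3 : ContinuousAt (f i) ((a : ℂ) + t * I) :=
      cont i _ (by simp) (by simpa using hab.le) (by simpa using ht.1) (by simpa using ht.2)
    exact (h3.comp (f := fun t : ℝ => (a : ℂ) + t * I) (by fun_prop)).continuousWithinAt
  have chor : ∀ i, ∀ y : ℝ, T₁ ≤ y → y ≤ T₁ + D →
      ContinuousOn (fun x : ℝ => f i (x + y * I)) (Icc a b) := by
    intro i y hy hy2 x hx
    have h3 : ContinuousAt (f i) ((x : ℂ) + y * I) :=
      cont i _ (by simpa using hx.1) (by simpa using hx.2) (by simpa using hy)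
        (by simpa using hy2)
    exact (h3.comp (f := fun x : ℝ => (x : ℂ) + y * I) (by fun_prop)).continuousWithinAt
  have hsin : ∀ t ∈ Icc T₁ (T₁ + D), 0 ≤ Real.sin (Real.pi * (t - T₁) / D) := by
    intro t ht
    apply Real.sin_nonneg_of_nonneg_of_le_pi
    · have : 0 ≤ t - T₁ := by linarith [ht.1]
      positivity
    · rw [div_le_iff₀ hD]
      nlinarith [ht.2]
  have hsinh : ∀ x ∈ Icc a b, 0 ≤ Real.sinh (Real.pi * (x - a) / D) := by
    intro x hx
    rw [Real.sinh_nonneg_iff]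
    have : 0 ≤ x - a := by linarith [hx.1]
    positivity
  -- the left side
  have i1 : ∀ i, IntervalIntegrable (fun t : ℝ =>
      w i * ((‖f i (a + t * I)‖ ^ 2 / Q₁ - 1 + Real.log Q₁) * Real.sin (Real.pi * (t - T₁) / D)))
      volume T₁ (T₁ + D) := by
    intro i
    apply ContinuousOn.intervalIntegrable
    rw [uIcc_of_le hle1]
    exact continuousOn_const.mul ((((((cleft i).norm.pow 2).div_const _).sub
      continuousOn_const).add continuousOn_const).mul csin.continuousOn)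
  have e1 : ∑ i, w i * (∫ t in T₁..(T₁ + D), (‖f i (a + t * I)‖ ^ 2 / Q₁ - 1 + Real.log Q₁) *
      Real.sin (Real.pi * (t - T₁) / D)) ≤
      S * Real.log Q₁ * (2 * D / Real.pi) := by
    simp only [← intervalIntegral.integral_const_mul]
    rw [← intervalIntegral.integral_finsetSum fun i _ => i1 i]
    rw [← Pool.Agent.H18.PZ.integral_sin_D (T₁ := T₁) hD, ← intervalIntegral.integral_const_mul]
    apply intervalIntegral.integral_mono_on hle1
    · have h2 := IntervalIntegrable.sum Finset.univ fun i _ => i1 i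
      rw [Finset.sum_fn] at h2
      exact h2
    · exact (continuous_const.mul csin).intervalIntegrable _ _
    · intro t ht
      have h0 : ∑ i, w i * ((‖f i (a + t * I)‖ ^ 2 / Q₁ - 1 + Real.log Q₁) *
          Real.sin (Real.pi * (t - T₁) / D)) =
          ((∑ i, w i * ‖f i (a + t * I)‖ ^ 2) / Q₁ - S + S * Real.log Q₁) *
            Real.sin (Real.pi * (t - T₁) / D) := by
        rw [hS, Finset.sum_div, Finset.sum_mul, ← Finset.sum_sub_distrib,
          ← Finset.sum_add_distrib, Finset.sum_mul]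
        refine Finset.sum_congr rfl fun i _ => ?_
        ring
      rw [h0]
      apply mul_le_mul_of_nonneg_right _ (hsin t ht)
      have h2 : (∑ i, w i * ‖f i (a + t * I)‖ ^ 2) / Q₁ ≤ S := by
        rw [div_le_iff₀ hQ₁0]
        linarith [hm1 t ht]
      linarith
  -- the horizontal sides
  have i2 : ∀ i, IntervalIntegrable (fun x : ℝ => w i * ((‖f i (x + T₁ * I)‖ ^ 2 / Q₂ +
          ‖f i (x + ((T₁ + D : ℝ) : ℂ) * I)‖ ^ 2 / Q₂ - 2 + 2 * Real.log Q₂) *
            Real.sinh (Real.pi * (x - a) / D))) volume a b := by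
    intro i
    apply ContinuousOn.intervalIntegrable
    rw [uIcc_of_le hab.le]
    exact continuousOn_const.mul (((((((chor i T₁ le_rfl hle1).norm.pow 2).div_const _).add
      (((chor i (T₁ + D) hle1 le_rfl).norm.pow 2).div_const _)).sub continuousOn_const).add
        continuousOn_const).mul csinh.continuousOn)
  have e2 : ∑ i, w i * (∫ x in a..b, (‖f i (x + T₁ * I)‖ ^ 2 / Q₂ +
          ‖f i (x + ((T₁ + D : ℝ) : ℂ) * I)‖ ^ 2 / Q₂ - 2 + 2 * Real.log Q₂) *
            Real.sinh (Real.pi * (x - a) / D)) ≤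
      (b - a) * (2 * (S * Real.log Q₂) * Real.sinh (Real.pi * (b - a) / D)) := by
    simp only [← intervalIntegral.integral_const_mul]
    rw [← intervalIntegral.integral_finsetSum fun i _ => i2 i]
    rw [← smul_eq_mul (b - a), ← intervalIntegral.integral_const]
    apply intervalIntegral.integral_mono_on hab.le
    · have h2 := IntervalIntegrable.sum Finset.univ fun i _ => i2 i
      rw [Finset.sum_fn] at h2
      exact h2
    · simp
    · intro x hx
      have h0 : ∑ i, w i * ((‖f i (x + T₁ * I)‖ ^ 2 / Q₂ +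
          ‖f i (x + ((T₁ + D : ℝ) : ℂ) * I)‖ ^ 2 / Q₂ - 2 + 2 * Real.log Q₂) *
            Real.sinh (Real.pi * (x - a) / D)) =
          ((∑ i, w i * ‖f i (x + T₁ * I)‖ ^ 2) / Q₂ +
            (∑ i, w i * ‖f i (x + ((T₁ + D : ℝ) : ℂ) * I)‖ ^ 2) / Q₂ - 2 * S +
              2 * (S * Real.log Q₂)) * Real.sinh (Real.pi * (x - a) / D) := by
        rw [hS, Finset.sum_div, Finset.sum_div, Finset.sum_mul, Finset.mul_sum, Finset.mul_sum,
          ← Finset.sum_add_distrib, ← Finset.sum_sub_distrib,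
          ← Finset.sum_add_distrib, Finset.sum_mul]
        refine Finset.sum_congr rfl fun i _ => ?_
        ring
      rw [h0]
      have h5 : Real.sinh (Real.pi * (x - a) / D) ≤ Real.sinh (Real.pi * (b - a) / D) := by
        rw [Real.sinh_le_sinh]
        have := hx.2
        gcongr
      have h4 : (∑ i, w i * ‖f i (x + T₁ * I)‖ ^ 2) / Q₂ +
            (∑ i, w i * ‖f i (x + ((T₁ + D : ℝ) : ℂ) * I)‖ ^ 2) / Q₂ - 2 * S +
              2 * (S * Real.log Q₂) ≤
          2 * (S * Real.log Q₂) := by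
        have h2 : (∑ i, w i * ‖f i (x + T₁ * I)‖ ^ 2) / Q₂ ≤ S := by
          rw [div_le_iff₀ hQ₂0]
          linarith [hm2 T₁ ⟨le_rfl, hle1⟩ x hx]
        have h3 : (∑ i, w i * ‖f i (x + ((T₁ + D : ℝ) : ℂ) * I)‖ ^ 2) / Q₂ ≤ S := by
          rw [div_le_iff₀ hQ₂0]
          linarith [hm2 (T₁ + D) ⟨hle1, le_rfl⟩ x hx]
        linarith
      refine (mul_le_mul_of_nonneg_right h4 (hsinh x hx)).trans ?_
      exact mul_le_mul_of_nonneg_left h5 (by positivity)
  have h8 : ∀ A B : ι → ℝ, ∀ c : ℝ, ∑ i, w i * (1 / 2 * A i + 1 / 2 * B i + c) =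
      1 / 2 * ∑ i, w i * A i + 1 / 2 * ∑ i, w i * B i + S * c := by
    intro A B c
    rw [hS, Finset.mul_sum, Finset.mul_sum, Finset.sum_mul, ← Finset.sum_add_distrib,
      ← Finset.sum_add_distrib]
    refine Finset.sum_congr rfl fun i _ => ?_
    ring
  rw [h8]
  have h9 : cmC a b D e Q₁ Q₂ * S =
      1 / 2 * (S * Real.log Q₁ * (2 * D / Real.pi)) +
      1 / 2 * ((b - a) * (2 * (S * Real.log Q₂) *
        Real.sinh (Real.pi * (b - a) / D))) +
      S * ((D + 2) * D * Real.cosh (Real.pi * (b - a) / D) * e) := by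
    unfold cmC
    ring
  rw [h9]
  linarith

theorem pf_CMW (h1 : Pool.Agent.H65.CRZ.T_CI) : T_CMW := by
  classical
  intro ι _ w f a β b T D e Q₁ Q₂ U hw haβ hβb hT hD hQ₁ hQ₂ hUo hUp hdiff hR hright hm1 hm2
  have hpi := Real.pi_pos
  have hab : a < b := haβ.trans hβb
  have hfin : ∀ i, {ρ : ℂ | β ≤ ρ.re ∧ ρ.re < b ∧ ρ ∈ St T ∧ f i ρ = 0}.Finite := by
    intro i
    have hana : AnalyticOnNhd ℂ (f i) U := by
      apply DifferentiableOn.analyticOnNhd _ hUo
      intro s hs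
      exact (hdiff i s hs).differentiableWithinAt
    have hs0 : ((b : ℂ) + (0 : ℝ) * I) ∈ U :=
      hR _ (by simpa using hab.le) (by simp) (by simpa using hD.le)
        (by simp; linarith)
    have hne0 : f i ((b : ℂ) + (0 : ℝ) * I) ≠ 0 :=
      (hright i 0 ⟨by linarith, by linarith⟩).1
    have hcomp : IsCompact (Icc a b ×ℂ Icc (-D) (T + D)) :=
      isCompact_Icc.reProdIm isCompact_Icc
    have hF : {z | z ∈ Icc a b ×ℂ Icc (-D) (T + D) ∧ f i z = 0}.Finite := by
      apply Pool.Agent.H18.PZ.zeros_finite hUp hana hs0 hne0 hcomp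
      intro z hz
      have hz := Complex.mem_reProdIm.1 hz
      exact hR z hz.1.1 hz.1.2 hz.2.1 hz.2.2
    refine hF.subset ?_
    rintro z ⟨h2, h3, h4, h5⟩
    refine ⟨?_, h5⟩
    rw [Complex.mem_reProdIm]
    exact ⟨⟨by linarith, h3.le⟩, by linarith [h4.1], by linarith [h4.2]⟩
  refine ⟨hfin, ?_⟩
  have hzc : ∀ i, zc (f i) {ρ : ℂ | β ≤ ρ.re ∧ ρ.re < b ∧ ρ ∈ St T} =
      ∑ ρ ∈ (hfin i).toFinset, (analyticOrderNatAt (f i) ρ : ℝ) := by
    intro i
    have hset : {ρ : ℂ | ρ ∈ {ρ : ℂ | β ≤ ρ.re ∧ ρ.re < b ∧ ρ ∈ St T} ∧ f i ρ = 0} =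
        {ρ : ℂ | β ≤ ρ.re ∧ ρ.re < b ∧ ρ ∈ St T ∧ f i ρ = 0} := by
      ext ρ
      simp only [Set.mem_ofPred_eq, and_assoc]
    unfold zc
    rw [hset, finsum_mem_eq_finite_toFinset_sum _ (hfin i)]
  simp only [hzc]
  -- one window
  have key : ∀ T₁ ∈ Icc (-D) T, 2 * Real.pi * (β - a) * ∑ i, w i * ∑ ρ ∈ (hfin i).toFinset,
      (analyticOrderNatAt (f i) ρ : ℝ) * sp D (ρ.im - T₁) ≤
        cmC a b D e Q₁ Q₂ * ∑ i, w i := by
    intro T₁ hT₁
    have hsub : ∀ t ∈ Icc T₁ (T₁ + D), t ∈ Icc (-D) (T + D) := fun t ht =>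
      ⟨hT₁.1.trans ht.1, ht.2.trans (by linarith [hT₁.2])⟩
    have hRT : ∀ s : ℂ, a ≤ s.re → s.re ≤ b → T₁ ≤ s.im → s.im ≤ T₁ + D → s ∈ U :=
      fun s h2 h3 h4 h5 => hR s h2 h3 (hsub _ ⟨h4, h5⟩).1 (hsub _ ⟨h4, h5⟩).2
    refine le_trans ?_ (cmw_right (f := f) (T₁ := T₁) (e := e) hw hab hD hQ₁ hQ₂
      (fun i s h2 h3 h4 h5 => (hdiff i s (hRT s h2 h3 h4 h5)).continuousAt)
      (fun t ht => hm1 t (hsub t ht)) (fun t ht => hm2 t (hsub t ht)))
    rw [Finset.mul_sum]
    apply Finset.sum_le_sum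
    intro i _
    rw [mul_left_comm]
    apply mul_le_mul_of_nonneg_left _ (hw i)
    refine le_trans ?_ (h1 (f i) a b T₁ D e Q₁ Q₂ U
      ((hfin i).toFinset.filter fun ρ => T₁ < ρ.im ∧ ρ.im < T₁ + D) hab hD (by linarith)
      (by linarith) hUo hUp (hdiff i) hRT (fun t ht => hright i t (hsub t ht)) ?_)
    · rw [Finset.sum_filter, Finset.mul_sum, Finset.mul_sum]
      apply Finset.sum_le_sum
      intro ρ hρ
      rw [Set.Finite.mem_toFinset] at hρ
      obtain ⟨h2, h3, h4, h5⟩ := hρ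
      by_cases hc : T₁ < ρ.im ∧ ρ.im < T₁ + D
      · rw [if_pos hc]
        have hs : sp D (ρ.im - T₁) = Real.sin (Real.pi * (ρ.im - T₁) / D) := by
          unfold sp
          rw [if_pos ⟨by linarith [hc.1], by linarith [hc.2]⟩]
        have hs0 := sp_nonneg hD (ρ.im - T₁)
        rw [hs] at hs0 ⊢
        have h6 : Real.pi * (ρ.re - a) / D ≤ Real.sinh (Real.pi * (ρ.re - a) / D) := by
          rw [Real.self_le_sinh_iff]
          have : 0 ≤ ρ.re - a := by linarith
          positivity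
        have h7 : Real.pi * (β - a) ≤ D * Real.sinh (Real.pi * (ρ.re - a) / D) := by
          have h8 := mul_le_mul_of_nonneg_left h6 hD.le
          rw [mul_div_cancel₀ _ hD.ne'] at h8
          have h9 : Real.pi * (β - a) ≤ Real.pi * (ρ.re - a) := by gcongr
          linarith
        have h8 : (0 : ℝ) ≤ (analyticOrderNatAt (f i) ρ : ℝ) := Nat.cast_nonneg _
        have h9 : (0 : ℝ) ≤ (analyticOrderNatAt (f i) ρ : ℝ) *
            Real.sin (Real.pi * (ρ.im - T₁) / D) := mul_nonneg h8 hs0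
        nlinarith [mul_le_mul_of_nonneg_right h7 h9]
      · rw [if_neg hc]
        have hs : sp D (ρ.im - T₁) = 0 := by
          unfold sp
          rw [if_neg]
          rintro ⟨h6, h7⟩
          exact hc ⟨by linarith, by linarith⟩
        rw [hs]
        simp
    · intro ρ hρ
      rw [Finset.mem_filter, Set.Finite.mem_toFinset] at hρ
      obtain ⟨⟨h2, h3, h4, h5⟩, h6, h7⟩ := hρ
      exact ⟨by linarith, h3, h6, h7⟩
  -- integration over the windows
  have hle : -D ≤ T := by linarith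
  have ci : ∀ i, ∀ ρ : ℂ, Continuous fun T₁ : ℝ =>
      (analyticOrderNatAt (f i) ρ : ℝ) * sp D (ρ.im - T₁) := by
    intro i ρ
    exact continuous_const.mul ((sp_cont hD).comp (continuous_const.sub continuous_id))
  have cj : ∀ i, Continuous fun T₁ : ℝ => w i * ∑ ρ ∈ (hfin i).toFinset,
      (analyticOrderNatAt (f i) ρ : ℝ) * sp D (ρ.im - T₁) := fun i =>
    continuous_const.mul (continuous_finsetSum _ fun ρ _ => ci i ρ)
  have hint := intervalIntegral.integral_mono_on (μ := volume) hle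
    (f := fun T₁ : ℝ => 2 * Real.pi * (β - a) * ∑ i, w i * ∑ ρ ∈ (hfin i).toFinset,
      (analyticOrderNatAt (f i) ρ : ℝ) * sp D (ρ.im - T₁))
    (g := fun _ => cmC a b D e Q₁ Q₂ * ∑ i, w i)
    (by
      apply Continuous.intervalIntegrable
      exact continuous_const.mul (continuous_finsetSum _ fun i _ => cj i))
    (by simp) key
  rw [intervalIntegral.integral_const_mul, intervalIntegral.integral_const,
    intervalIntegral.integral_finsetSum (fun i _ => (cj i).intervalIntegrable _ _),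
    smul_eq_mul, sub_neg_eq_add] at hint
  have e4 : ∀ i, (∫ T₁ in (-D)..T, w i * ∑ ρ ∈ (hfin i).toFinset,
      (analyticOrderNatAt (f i) ρ : ℝ) * sp D (ρ.im - T₁)) =
      (w i * ∑ ρ ∈ (hfin i).toFinset, (analyticOrderNatAt (f i) ρ : ℝ)) *
        (2 * D / Real.pi) := by
    intro i
    rw [intervalIntegral.integral_const_mul,
      intervalIntegral.integral_finsetSum (fun ρ _ => (ci i ρ).intervalIntegrable _ _),
      mul_assoc, Finset.sum_mul]
    refine congrArg (fun z => w i * z) (Finset.sum_congr rfl fun ρ hρ => ?_)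
    rw [Set.Finite.mem_toFinset] at hρ
    rw [intervalIntegral.integral_const_mul, sp_integral hD hρ.2.2.1.1 hρ.2.2.1.2]
  simp only [e4] at hint
  rw [← Finset.sum_mul] at hint
  refine le_trans (le_of_eq ?_) (hint.trans (le_of_eq ?_))
  · field_simp
    ring
  · unfold cmC
    ring

end Pool.Agent.H47.CZF
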