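import Pool.Agent.H65.CZF.TB
import Pool.Agent.H54.HH.LOW

/-!
Module LWZ: the simple zeros, for all the characters of one field.
-/

set_option autoImplicit false

open NumberField Complex Filter Topology MeasureTheory

namespace Pool.Agent.H47.CZF

open Pool.Agent.H65.CZF Pool.Agent.H33.HC Pool.Agent.H33.HH Pool.Agent.H28.RC Pool.Agent.H37.CV
open Pool.Agent.H65.CRZ (zc St SZ Zx cA cc)
open Pool.Agent.H65.CRG (LFg VQ cQ kn pm qm CZ TK el)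
open Pool.Agent.H54.HH (lw_nm lw_rk lw_W1)

section

variable {K : Type} [Field K] [NumberField K]

theorem lwz_ns_nonneg (T : ℝ) (χ : RCC K) : 0 ≤ ns T χ := by
  unfold ns
  exact Nat.cast_nonneg _

/-- the sums over the families of the smooth parts `k` -/
theorem lwz_count (hFAC : T_FAC) (P : ℝ) (F : RCC K → ℝ) (hF : ∀ χ, 0 ≤ F χ)
    (X : Finset (Ideal (𝓞 K))) (hX : ∀ k ∈ X, Sm' P k) (S : Set (RCC K)) (hS : S.Finite)
    (v : Ideal (𝓞 K) → ℝ)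
    (hv : ∀ k ∈ X, ∃ (ι : Type) (_ : Fintype ι) (w : ι → ℝ) (x : ι → RCC K),
      Function.Injective x ∧ (∀ i, 0 ≤ w i ∧ w i ≤ 1 ∧ x i ∈ S ∧
        ∃ q : Ideal (𝓞 K), q ≠ ⊥ ∧ Cp P q ∧ (x i).f = k * q) ∧ v k = ∑ i, w i * F (x i)) :
    ∑ k ∈ X, v k ≤ ∑ᶠ χ ∈ S, F χ := by
  classical
  have h1 : ∀ k ∈ X, ∃ A : Finset (RCC K), (∀ χ ∈ A, χ ∈ S ∧
      ∃ q : Ideal (𝓞 K), q ≠ ⊥ ∧ Cp P q ∧ χ.f = k * q) ∧ v k ≤ ∑ χ ∈ A, F χ := by
    intro k hk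
    obtain ⟨ι, _, w, x, hx, h2, h3⟩ := hv k hk
    refine ⟨Finset.univ.image x, ?_, ?_⟩
    · intro χ hχ
      obtain ⟨i, -, rfl⟩ := Finset.mem_image.1 hχ
      exact ⟨(h2 i).2.2.1, (h2 i).2.2.2⟩
    · rw [h3, Finset.sum_image (fun i _ j _ h => hx h)]
      exact Finset.sum_le_sum fun i _ => mul_le_of_le_one_left (hF _) (h2 i).2.1
  have h2 : ∀ k : Ideal (𝓞 K), ∃ A : Finset (RCC K), k ∈ X → (∀ χ ∈ A, χ ∈ S ∧
      ∃ q : Ideal (𝓞 K), q ≠ ⊥ ∧ Cp P q ∧ χ.f = k * q) ∧ v k ≤ ∑ χ ∈ A, F χ := by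
    intro k
    by_cases hk : k ∈ X
    · obtain ⟨A, hA⟩ := h1 k hk
      exact ⟨A, fun _ => hA⟩
    · exact ⟨∅, fun h => absurd h hk⟩
  choose A hA using h2
  have hdis : ∀ k ∈ X, ∀ k' ∈ X, k ≠ k' → Disjoint (A k) (A k') := by
    intro k hk k' hk' hne
    rw [Finset.disjoint_left]
    intro χ h3 h4
    obtain ⟨-, q, hq0, hq, hf⟩ := (hA k hk).1 χ h3
    obtain ⟨-, q', hq0', hq', hf'⟩ := (hA k' hk').1 χ h4
    obtain ⟨p₀, -, hu⟩ := hFAC K P χ.f χ.f_ne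
    have e := (hu (k, q) ⟨hX k hk, hq0, hq, hf⟩).trans
      (hu (k', q') ⟨hX k' hk', hq0', hq', hf'⟩).symm
    exact hne (Prod.mk.inj e).1
  have h3 : ∑ k ∈ X, v k ≤ ∑ χ ∈ X.biUnion A, F χ := by
    rw [Finset.sum_biUnion]
    · exact Finset.sum_le_sum fun k hk => (hA k hk).2
    · intro k hk k' hk' hne
      exact hdis k hk k' hk' hne
  refine h3.trans ?_
  rw [finsum_mem_eq_finite_toFinset_sum _ hS]
  refine Finset.sum_le_sum_of_subset_of_nonneg ?_ fun χ _ _ => hF χ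
  intro χ hχ
  obtain ⟨k, hk, h4⟩ := Finset.mem_biUnion.1 hχ
  rw [Set.Finite.mem_toFinset]
  exact ((hA k hk).1 χ h4).1

end

theorem pf_LWZ (h1 : T_SMQ) (h2 : Pool.Agent.H33.HH.T_UPT) (h3 : Pool.Agent.H33.HH.T_WEX)
    (h4 : Pool.Agent.H33.HH.T_FAC) (h5 : Pool.Agent.H33.HH.T_PHM) (h6 : T_FAM) (_h7 : T_FNZ)
    (_h8 : T_ENA) : T_LWZ := by
  intro K _ _ _
  obtain ⟨W, hW, -, hW1⟩ := h3 (1 / 1000000) (by norm_num) (by norm_num)
  have hW2 := lw_W1 hW (by norm_num) (by norm_num) hW1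
  have hW3 : 0 < W1 W := by linarith
  obtain ⟨P, hP⟩ := h1 K W hW hW3
  obtain ⟨X, x₀, hXS, hXt, hx₀, hx⟩ := h2 K P (1 / 100000) (by norm_num)
  have hT : ∀ k : Ideal (𝓞 K), ∃ T₀ : ℝ, 0 < T₀ ∧ (k ∈ X → ∀ T : ℝ, T₀ ≤ T →
      ∃ Q₀ : ℝ, 2 ≤ Q₀ ∧ ∀ Q : ℝ, Q₀ ≤ Q →
      5601 / 10000 * (T / Real.pi * (Real.log Q / 2)) * A0 P Q W k ≤ FW P Q W k (ns T)) := by
    intro k
    by_cases hk : k ∈ X
    · obtain ⟨T₀, h8, h9⟩ := hP P le_rfl k (hXS k hk)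
      exact ⟨T₀, h8, fun _ => h9⟩
    · exact ⟨1, one_pos, fun h => absurd h hk⟩
  choose T₀ hT1 hT2 using hT
  refine ⟨∑ k ∈ X, T₀ k, Finset.sum_pos (fun k _ => hT1 k) ⟨⊤, hXt⟩, fun T hTT B => ?_⟩
  have hTk : ∀ k ∈ X, T₀ k ≤ T := fun k hk =>
    (Finset.single_le_sum (f := T₀) (fun k _ => (hT1 k).le) hk).trans hTT
  have hT0 : 0 < T := (hT1 ⊤).trans_le (hTk ⊤ hXt)
  have hnm : ∀ k ∈ X, 1 ≤ nm k := fun k hk => lw_nm (hXS k hk).1
  have hev : ∀ᶠ x : ℝ in atTop, ∀ k ∈ X,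
      (5601 / 10000 * (T / Real.pi * (Real.log (x / nm k) / 2)) * A0 P (x / nm k) W k ≤
        FW P (x / nm k) W k (ns T)) ∧ Real.log (nm k) ≤ 1 / 100000 * Real.log x ∧
      ∃ (ι : Type) (_ : Fintype ι) (w : ι → ℝ) (y : ι → RCC K),
      Function.Injective y ∧ (∀ i, 0 ≤ w i ∧ w i ≤ 1 ∧ y i ∈ {χ : RCC K | χ ∈ Al K x ∧
        B ≤ nm χ.f} ∧ ∃ q : Ideal (𝓞 K), q ≠ ⊥ ∧ Cp P q ∧ (y i).f = k * q) ∧
        FW P (x / nm k) W k (ns T) = ∑ i, w i * ns T (y i) := by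
    rw [Filter.eventually_all_finset]
    intro k hk
    have hk1 := hnm k hk
    have hk0 : 0 < nm k := by linarith
    obtain ⟨Q₀, -, hQ₀⟩ := hT2 k hk T (hTk k hk)
    obtain ⟨κ₁, Q₁, hκ, hQ1, hQ₁⟩ := h6 K P W k hW (hXS k hk)
    have ht : Tendsto (fun x : ℝ => x / nm k) atTop atTop := tendsto_id.atTop_div_const hk0
    have ev1 := ht.eventually (eventually_ge_atTop Q₀)
    have ev2 := ht.eventually (eventually_ge_atTop Q₁)
    have ev3 : ∀ᶠ x : ℝ in atTop, B ≤ κ₁ * (x / nm k) :=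
      (ht.const_mul_atTop hκ).eventually (eventually_ge_atTop B)
    have ev4 : ∀ᶠ x : ℝ in atTop, Real.log (nm k) ≤ 1 / 100000 * Real.log x :=
      (Real.tendsto_log_atTop.const_mul_atTop (by norm_num)).eventually
        (eventually_ge_atTop (Real.log (nm k)))
    filter_upwards [ev1, ev2, ev3, ev4] with x g1 g2 g3 g4
    refine ⟨hQ₀ _ g1, g4, ?_⟩
    obtain ⟨-, ι, hι, w, y, hy, h7, -, h8⟩ := hQ₁ (x / nm k) g2
    refine ⟨ι, hι, w, y, hy, fun i => ?_, h8 _⟩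
    obtain ⟨a1, a2, -, a4, a5, a6⟩ := h7 i
    refine ⟨a1, a2, ⟨?_, g3.trans a4⟩, a6⟩
    show nm (y i).f ≤ x
    rwa [mul_div_cancel₀ _ hk0.ne'] at a5
  obtain ⟨x₁, hx₁⟩ := eventually_atTop.1 (hev.and (eventually_ge_atTop (max x₀ 2)))
  refine ⟨max x₁ 2, le_max_right _ _, fun x hxx => ?_⟩
  obtain ⟨hall, hx2⟩ := hx₁ x ((le_max_left _ _).trans hxx)
  have hxx0 : x₀ ≤ x := (le_max_left _ _).trans hx2
  have hxx2 : 2 ≤ x := (le_max_right _ _).trans hx2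
  obtain ⟨hfin, hup⟩ := hx x hxx0
  refine ⟨hfin, ?_⟩
  have hSf : {χ : RCC K | χ ∈ Al K x ∧ B ≤ nm χ.f}.Finite := hfin.subset fun χ hχ => hχ.1
  have hcount := lwz_count h4 P (ns T) (lwz_ns_nonneg T) X hXS _ hSf
    (fun k => FW P (x / nm k) W k (ns T)) (fun k hk => (hall k hk).2.2)
  refine le_trans ?_ hcount
  have hlog : 0 < Real.log x := Real.log_pos (by linarith)
  obtain ⟨-, hph1, hph2⟩ := h5 K
  obtain ⟨Sg, hSg⟩ : ∃ Sg : ℝ, Sg = ∑ k ∈ X, phs k / nm k ^ 2 := ⟨_, rfl⟩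
  have hph0 : ∀ k ∈ X, 0 ≤ phs k / nm k ^ 2 := fun k hk =>
    div_nonneg (hph2 k (hXS k hk).1).1 (by positivity)
  have hS1 : 1 ≤ Sg := by
    rw [hSg]
    have h6 : phs (⊤ : Ideal (𝓞 K)) / nm (⊤ : Ideal (𝓞 K)) ^ 2 = 1 := by
      rw [hph1]
      unfold nm
      simp
    rw [← h6]
    exact Finset.single_le_sum (f := fun k => phs k / nm k ^ 2) hph0 hXt
  obtain ⟨V, hV⟩ : ∃ V : ℝ, V = hc K / wu K * rk K P * (x ^ 2 / 2) := ⟨_, rfl⟩
  have hV0 : 0 ≤ V := by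
    rw [hV]
    exact mul_nonneg (lw_rk P) (by positivity)
  rw [← hV, ← hSg] at hup
  obtain ⟨E, hE⟩ : ∃ E : ℝ, E = T / Real.pi * (Real.log x / 2) := ⟨_, rfl⟩
  have hpi := Real.pi_pos
  have hE0 : 0 ≤ E := by
    rw [hE]
    positivity
  rw [← hE]
  -- the lower bound of the sum
  have hlow : 5601 / 10000 * (1 - 1 / 100000) * (2 * W1 W) * (E * (V * Sg)) ≤
      ∑ k ∈ X, FW P (x / nm k) W k (ns T) := by
    have e1 : 5601 / 10000 * (1 - 1 / 100000) * (2 * W1 W) * (E * (V * Sg)) =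
        ∑ k ∈ X, 5601 / 10000 * (1 - 1 / 100000) * (2 * W1 W) * (E * (V * (phs k / nm k ^ 2))) := by
      rw [hSg, Finset.mul_sum, Finset.mul_sum, Finset.mul_sum]
    rw [e1]
    refine Finset.sum_le_sum fun k hk => ?_
    refine le_trans ?_ (hall k hk).1
    have hk1 := hnm k hk
    have hk0 : 0 < nm k := by linarith
    have e2 : A0 P (x / nm k) W k = 2 * W1 W * (V * (phs k / nm k ^ 2)) := by
      unfold A0
      rw [hV, div_pow]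
      ring
    rw [e2, Real.log_div (by linarith) hk0.ne']
    have e3 : (1 - 1 / 100000) * E ≤ T / Real.pi * ((Real.log x - Real.log (nm k)) / 2) := by
      rw [hE]
      have e4 := (hall k hk).2.1
      have e5 : (1 - 1 / 100000) * (Real.log x / 2) ≤ (Real.log x - Real.log (nm k)) / 2 := by
        linarith
      have e6 := mul_le_mul_of_nonneg_left e5 (by positivity : 0 ≤ T / Real.pi)
      linarith
    have e7 : 0 ≤ 2 * W1 W * (V * (phs k / nm k ^ 2)) :=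
      mul_nonneg (by linarith) (mul_nonneg hV0 (hph0 k hk))
    have e8 := mul_le_mul_of_nonneg_right e3 e7
    nlinarith
  refine le_trans ?_ hlow
  have hVS : 0 ≤ V * Sg := mul_nonneg hV0 (by linarith)
  have e1 : ((Al K x).ncard : ℝ) ≤ (1 + 1 / 100000) * (V * Sg) := by
    nlinarith [mul_nonneg hV0 (sub_nonneg.2 hS1)]
  have e2 : 56008 / 100000 * E * ((Al K x).ncard : ℝ) ≤
      56008 / 100000 * E * ((1 + 1 / 100000) * (V * Sg)) :=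
    mul_le_mul_of_nonneg_left e1 (by positivity)
  have e3 : 0 ≤ E * (V * Sg) := mul_nonneg hE0 hVS
  have e4 : (56008 / 100000 : ℝ) * (1 + 1 / 100000) ≤
      5601 / 10000 * (1 - 1 / 100000) * (2 * W1 W) := by
    nlinarith
  have e5 := mul_le_mul_of_nonneg_right e4 e3
  linarith

end Pool.Agent.H47.CZF
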